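import Pool.Agent.Y227.SS.Defs
import Pool.Agent.TH571.GP.Spectral
import Mathlib.NumberTheory.PrimeCounting

set_option autoImplicit false

/-!
Definitions for the density theorem.
-/

open Polynomial

namespace Pool.Agent.Y227.TP

open Pool.Agent.W432.PC Pool.Agent.W432.TC Pool.Agent.Y227.SS Pool.Agent.TH571.GP

universe u

/-- The lower natural density of the set of the primes with the property `Bad` is less than `ε`: for
arbitrarily large `N`, fewer than `ε * π(N)` primes `p ≤ N` have this property. -/
def Few (Bad : ℕ → Prop) (ε : ℝ) : Prop :=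
  ∀ N₀ : ℕ, ∃ N : ℕ, N₀ ≤ N ∧ (Nat.card {p : ℕ // p ≤ N ∧ p.Prime ∧ Bad p} : ℝ) <
    ε * Nat.primeCounting N

section

variable {R : Type u} [CommRing R] [IsDomain R] [CharZero R] {n r : ℕ}

/-- The `p`-curvature is nonzero at some closed point of residue characteristic `p`. -/
def BadPt (α : Fin n → R) (A : Fin n → Matrix (Fin r) (Fin r) R) (p : ℕ) : Prop :=
  ∃ (𝔪 : Ideal R) (_ : 𝔪.IsMaximal), (p : R) ∈ 𝔪 ∧ ¬ PCurvZeroAt α A 𝔪

end

/-- The rational numbers `lam l` are the eigenvalues of `B`, with multiplicity, and `B` is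
diagonalizable: the product of the `B - q` over the distinct eigenvalues `q` is zero. -/
def DiagExps {R : Type*} [CommRing R] [IsDomain R] {r : ℕ} (B : Matrix (Fin r) (Fin r) R)
    (lam : Fin r → ℚ) : Prop :=
  HasExponents B lam ∧ aeval (B.map (algebraMap R (FractionRing R)))
    (∏ q ∈ Finset.univ.image lam, (X - C ((q : ℚ) : FractionRing R))) = 0

section

variable {n r : ℕ}

/-- The exponents as a point of the torus. -/
noncomputable def pt (lam : Fin n → Fin r → ℚ) (phi : Fin r → ℚ) : ExponentIndex n r → ℝ :=
  fun i => ((Sum.elim (fun p => lam p.1 p.2) phi i : ℚ) : ℝ)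

end

section

variable {R : Type u} [CommRing R] [IsDomain R] {n r : ℕ}

/-- For every `a` prime to `N` the conjugate exponents are semistable weights, and stable weights if
the system is absolutely irreducible. -/
def ConjGood (α : Fin n → R) (A : Fin n → Matrix (Fin r) (Fin r) R) (lam : Fin n → Fin r → ℚ)
    (phi : Fin r → ℚ) (N : ℕ) : Prop :=
  ∀ a : ℤ, IsCoprime a (N : ℤ) →
    SemistableWeights ℂ (fun j l => (a : ℝ) * lam j l) (fun l => (a : ℝ) * phi l) ∧
    (AbsIrreducible α A →
      StableWeights ℂ (fun j l => (a : ℝ) * lam j l) (fun l => (a : ℝ) * phi l))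

end

/-- The exponents `z` with the same label at the same point are congruent modulo the integers. -/
def OfType {n r : ℕ} (z : ExponentIndex n r → ℝ) (ty : Option (Fin n) → Fin r → Fin r) : Prop :=
  (∀ j l l', ty (some j) l = ty (some j) l' →
    ∃ e : ℤ, z (Sum.inl (j, l)) - z (Sum.inl (j, l')) = e) ∧
  ∀ l l', ty none l = ty none l' → ∃ e : ℤ, z (Sum.inr l) - z (Sum.inr l') = e

/-- Every point `z` of the coset `C` gives the weights of a semistable parabolic bundle of parabolic
degree zero; if the exponents `z` are divided into classes of congruent ones, by labels `ty`, with at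
most `m` elements in each class (except possibly the classes `big p` at the points `p ≠ p₀`), then
`C` has at least `r / m` relations which are independent as relations between the classes. -/
def Adapted {n r : ℕ} (C : AddSubgroup (ExponentIndex n r → ℤ) × (ExponentIndex n r → ℚ)) : Prop :=
  ∀ z : ExponentIndex n r → ℝ, InCoset C.1 C.2 z →
    SemistableWeights ℂ (fun j l => z (Sum.inl (j, l))) (fun l => z (Sum.inr l)) ∧
    ∀ (ty : Option (Fin n) → Fin r → Fin r) (p₀ : Option (Fin n)) (big : Option (Fin n) → Fin r)
      (m : ℕ), OfType z ty →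
      (∀ p l, p = p₀ ∨ ty p l ≠ big p →
        (Finset.univ.filter fun l' => ty p l' = ty p l).card ≤ m) →
      ∃ (k : ℕ) (f : Fin k → ExponentIndex n r → ℤ), r ≤ k * m ∧
        LinearIndependent ℤ (fun j => classSum ty (f j)) ∧ ∀ j, f j ∈ C.1

end Pool.Agent.Y227.TP
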