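import Pool.Agent.Y227.SO.Dens
import Pool.Agent.Y227.TP.Defs

set_option autoImplicit false

/-!
Natural densities of sets of primes.
-/

open Filter Topology Finset

namespace Pool.Agent.Y227.TP

open Pool.Agent.W401.Cheb (M pr mem_pr M_congr M_one M_sum M_add M_mono M_nonneg tendsto_pc
  M_congr_tendsto M_smul)
open Pool.Agent.Y227.SO (class_lower not_dvd_fact)

variable {Bad : ℕ → Prop}

open Classical in
/-- The indicator function. -/
noncomputable def ind (Bad : ℕ → Prop) (p : ℕ) : ℝ := if p.Prime ∧ Bad p then 1 else 0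

lemma ind_nonneg (Bad : ℕ → Prop) (p : ℕ) : 0 ≤ ind Bad p := by
  unfold ind; split_ifs <;> norm_num

lemma M_ind (Bad : ℕ → Prop) (N : ℕ) :
    M (ind Bad) N = (Nat.card {p : ℕ // p ≤ N ∧ p.Prime ∧ Bad p} : ℝ) / Nat.primeCounting N := by
  classical
  unfold M ind
  congr 1
  rw [← sum_filter, sum_const, nsmul_eq_mul, mul_one]
  congr 1
  rw [← Nat.card_eq_finsetCard]
  refine Nat.card_congr (Equiv.subtypeEquivRight fun p => ?_)
  rw [mem_filter, mem_pr]
  constructor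
  · rintro ⟨⟨h1, -⟩, h2⟩; exact ⟨h1, h2⟩
  · rintro ⟨h1, h2⟩; exact ⟨⟨h1, h2.1⟩, h2⟩

lemma Few.freq {ε : ℝ} (h : Few Bad ε) : ∃ᶠ N in atTop, M (ind Bad) N < ε := by
  rw [frequently_atTop]
  intro N₀
  obtain ⟨N, hN, h1⟩ := h (max N₀ 2)
  refine ⟨N, (le_max_left _ _).trans hN, ?_⟩
  have hpc : (0 : ℝ) < Nat.primeCounting N := by
    have : Nat.primeCounting N ≠ 0 := by
      rw [Ne, Nat.primeCounting_eq_zero_iff]
      have := (le_max_right N₀ 2).trans hN
      omega
    exact_mod_cast Nat.pos_of_ne_zero this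
  rw [M_ind, div_lt_iff₀ hpc]
  exact h1

lemma Few.mono {ε ε' : ℝ} (h : Few Bad ε) (hε : ε ≤ ε') : Few Bad ε' := by
  intro N₀
  obtain ⟨N, hN, h1⟩ := h N₀
  exact ⟨N, hN, h1.trans_le (mul_le_mul_of_nonneg_right hε (Nat.cast_nonneg _))⟩

/-- Bad classes give a positive lower density of bad primes. -/
theorem not_few_of_classes {q : ℕ} (hq : 0 < q) {ε : ℝ} (hε : 0 < ε) (S : Finset (ZMod q)ˣ)
    (P₀ : ℕ) (h1 : ε * q.totient ≤ S.card)
    (h2 : ∀ p : ℕ, p.Prime → P₀ < p → (∃ v ∈ S, ((p : ℕ) : ZMod q) = ((v : (ZMod q)ˣ) : ZMod q)) →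
      Bad p) : ¬ Few Bad (ε / 2) := by
  classical
  intro hfew
  have : NeZero q := ⟨hq.ne'⟩
  have hφ : (0 : ℝ) < q.totient := by exact_mod_cast Nat.totient_pos.mpr hq
  set η : ℝ := ε / (4 * (S.card + 1)) with hη
  have hη0 : 0 < η := by positivity
  have h3 : ∀ᶠ N in atTop, ∀ v ∈ S, ((q.totient : ℝ)⁻¹ - η) ≤
      M (fun p => if ((p : ℕ) : ZMod q) = ((v : (ZMod q)ˣ) : ZMod q) then 1 else 0) N :=
    (Filter.eventually_all_finset S).mpr fun v _ => class_lower q v η hη0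
  have h4 := M_congr_tendsto (a := fun p => ∑ v ∈ S,
      (if ((p : ℕ) : ZMod q) = ((v : (ZMod q)ˣ) : ZMod q) then (1 : ℝ) else 0))
    (b := fun p => if p ∣ (P₀ + 1).factorial then 0 else ∑ v ∈ S,
      (if ((p : ℕ) : ZMod q) = ((v : (ZMod q)ˣ) : ZMod q) then (1 : ℝ) else 0))
    (Nat.factorial_pos (P₀ + 1)) (fun p hp hpd => by rw [if_neg hpd])
  have h5 := h4.eventually (gt_mem_nhds (show (0 : ℝ) < ε / 4 by positivity))
  obtain ⟨N, hN, hN3, hN5⟩ := (hfew.freq.and_eventually (h3.and h5)).exists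
  have h6 : M (fun p => if p ∣ (P₀ + 1).factorial then 0 else ∑ v ∈ S,
      (if ((p : ℕ) : ZMod q) = ((v : (ZMod q)ˣ) : ZMod q) then (1 : ℝ) else 0)) N ≤
      M (ind Bad) N := by
    refine M_mono (fun p hp => ?_) N
    by_cases hpd : p ∣ (P₀ + 1).factorial
    · rw [if_pos hpd]; exact ind_nonneg Bad p
    · rw [if_neg hpd]
      by_cases hv : ∃ v ∈ S, ((p : ℕ) : ZMod q) = ((v : (ZMod q)ˣ) : ZMod q)
      · have hbad : p.Prime ∧ Bad p := ⟨hp, h2 p hp (not_dvd_fact hp hpd) hv⟩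
        obtain ⟨v, hv1, hv2⟩ := hv
        unfold ind
        rw [if_pos hbad]
        rw [sum_eq_single v]
        · rw [if_pos hv2]
        · intro w _ hw
          rw [if_neg]
          intro hw2
          exact hw (Units.ext (hw2.symm.trans hv2))
        · intro h; exact absurd hv1 h
      · push Not at hv
        rw [sum_eq_zero]
        · exact ind_nonneg Bad p
        · intro v hv1
          rw [if_neg (hv v hv1)]
  have h7 : (S.card : ℝ) * ((q.totient : ℝ)⁻¹ - η) ≤ M (fun p => ∑ v ∈ S,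
      (if ((p : ℕ) : ZMod q) = ((v : (ZMod q)ˣ) : ZMod q) then (1 : ℝ) else 0)) N := by
    rw [M_sum]
    calc (S.card : ℝ) * ((q.totient : ℝ)⁻¹ - η) = ∑ _v ∈ S, ((q.totient : ℝ)⁻¹ - η) := by
          rw [sum_const, nsmul_eq_mul]
      _ ≤ _ := sum_le_sum fun v hv => hN3 v hv
  have h8 : ε ≤ (S.card : ℝ) * (q.totient : ℝ)⁻¹ := by
    rw [← div_eq_mul_inv, le_div_iff₀ hφ]
    exact h1
  have h9 : (S.card : ℝ) * η ≤ ε / 4 := by
    rw [hη, mul_div_assoc', div_le_div_iff₀ (by positivity) (by norm_num)]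
    have : (0 : ℝ) ≤ S.card := Nat.cast_nonneg _
    nlinarith
  nlinarith

/-- Infinitely many primes are good. -/
theorem Few.inf {ε : ℝ} (hε : ε ≤ 1 / 2) (h : Few Bad ε) (P : ℕ) :
    ∃ p : ℕ, P < p ∧ p.Prime ∧ ¬ Bad p := by
  classical
  by_contra hcon
  push Not at hcon
  have h1 : Tendsto (M (ind Bad)) atTop (𝓝 1) := by
    refine M_congr (D := (P + 1).factorial) (Nat.factorial_pos _) (b := fun _ => 1) ?_ M_one
    intro p hp hpd
    unfold ind
    rw [if_pos]
    exact ⟨hp, hcon p (not_dvd_fact hp hpd) hp⟩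
  have h2 := h1.eventually (lt_mem_nhds (show (1 / 2 : ℝ) < 1 by norm_num))
  obtain ⟨N, hN, hN2⟩ := (h.freq.and_eventually h2).exists
  linarith

open NumberField Pool.Agent.W401.Cheb in
/-- Some good prime has a Frobenius element which moves `r`. -/
theorem Few.frob {ε : ℝ} (hε : ε ≤ 1 / 4) (h : Few Bad ε)
    (E : Type) [Field E] [NumberField E] [IsGalois ℚ E] (r : E) (g₀ : Gal(E/ℚ))
    (hg₀ : g₀ r ≠ r) (B : ℕ) :
    ∃ (p : ℕ) (_hp : Fact p.Prime) (g : Gal(E/ℚ)), B < p ∧ ¬ Bad p ∧ g r ≠ r ∧ xp E g p ≠ 0 := by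
  classical
  by_contra hcon
  push Not at hcon
  obtain ⟨D, hD, hTor⟩ := torsor E
  let U : Finset (Gal(E/ℚ)) := univ.filter fun g => g r ≠ r
  have hU : (Nat.card (Gal(E/ℚ)) : ℝ) ≤ 2 * U.card := by
    have h1 : (univ.filter fun g : Gal(E/ℚ) => ¬ g r ≠ r).card ≤ U.card := by
      refine card_le_card_of_injOn (fun h => g₀ * h) ?_ ?_
      · intro g hg
        rw [mem_coe, mem_filter] at hg
        rw [mem_coe, mem_filter]
        refine ⟨mem_univ _, ?_⟩
        have h2 : g r = r := not_not.mp hg.2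
        show g₀ (g r) ≠ r
        rw [h2]
        exact hg₀
      · intro x _ y _ hxy
        exact mul_left_cancel hxy
    have h2 : U.card + (univ.filter fun g : Gal(E/ℚ) => ¬ g r ≠ r).card =
        Nat.card (Gal(E/ℚ)) := by
      rw [card_filter_add_card_filter_not, Nat.card_eq_fintype_card, card_univ]
    have h3 : Nat.card (Gal(E/ℚ)) ≤ 2 * U.card := by omega
    exact_mod_cast h3
  have hG : (0 : ℝ) < Nat.card (Gal(E/ℚ)) := by exact_mod_cast Nat.card_pos
  set G : ℝ := (Nat.card (Gal(E/ℚ)) : ℝ) with hGdef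
  have h1 : Tendsto (M fun p => ∑ g ∈ U, (xp E g p : ℝ)) atTop (𝓝 (U.card : ℝ)) := by
    have h2 : Tendsto (fun N => ∑ g ∈ U, M (fun p => (xp E g p : ℝ)) N) atTop
        (𝓝 (∑ _g ∈ U, (1 : ℝ))) := tendsto_finsetSum U fun g _ => chebotarev E g
    rw [sum_const, nsmul_eq_mul, mul_one] at h2
    refine h2.congr fun N => ?_
    rw [M_sum]
  have h2 : Tendsto (M fun p => if p ∣ D * (B + 1).factorial then 0 else
      ∑ g ∈ U, (xp E g p : ℝ)) atTop (𝓝 (U.card : ℝ)) := by
    refine M_congr (D := D * (B + 1).factorial) (Nat.mul_pos hD (Nat.factorial_pos _)) ?_ h1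
    intro p _ hpd
    rw [if_neg hpd]
  have h3 := h2.eventually (lt_mem_nhds (show (G / 4 : ℝ) < U.card by linarith))
  obtain ⟨N, hN, hN2⟩ := (h.freq.and_eventually h3).exists
  have h4 : M (fun p => if p ∣ D * (B + 1).factorial then 0 else
      ∑ g ∈ U, (xp E g p : ℝ)) N ≤ M (fun p => G * ind Bad p) N := by
    refine M_mono (fun p hp => ?_) N
    by_cases hpd : p ∣ D * (B + 1).factorial
    · rw [if_pos hpd]
      exact mul_nonneg hG.le (ind_nonneg Bad p)
    · rw [if_neg hpd]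
      have hfact : Fact p.Prime := ⟨hp⟩
      have hpD : ¬ p ∣ D := fun h' => hpd (h'.mul_right _)
      have hpB : B < p := not_dvd_fact hp fun h' => hpd (h'.mul_left _)
      by_cases hbad : p.Prime ∧ Bad p
      · unfold ind
        rw [if_pos hbad, mul_one, hGdef]
        have h5 := sum_xp (hTor p hpD)
        rw [← h5]
        push_cast
        exact sum_le_sum_of_subset_of_nonneg (subset_univ _) fun _ _ _ => Nat.cast_nonneg _
      · have hgood : ¬ Bad p := fun h => hbad ⟨hp, h⟩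
        rw [sum_eq_zero]
        · exact mul_nonneg hG.le (ind_nonneg Bad p)
        · intro g hg
          rw [hcon p hfact g hpB hgood (mem_filter.mp hg).2, Nat.cast_zero]
  rw [M_smul] at h4
  have h5 : G * M (ind Bad) N < G * (1 / 4) := mul_lt_mul_of_pos_left (hN.trans_le hε) hG
  linarith

end Pool.Agent.Y227.TP
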