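import Pool.Agent.Y227.TP.Rat

set_option autoImplicit false

/-!
Diagonalizable residues.
-/

open Polynomial

namespace Pool.Agent.Y227.TP

open Pool.Agent.W432.PC Pool.Agent.W432.TC Pool.Agent.Y227.SS

universe u

lemma aeval_mulVec {K : Type*} [Field K] {r : ℕ} (M : Matrix (Fin r) (Fin r) K) (v : Fin r → K)
    (μ : K) (h : M.mulVec v = μ • v) (P : K[X]) : (aeval M P).mulVec v = P.eval μ • v := by
  induction P using Polynomial.induction_on' with
  | add p q hp hq => rw [map_add, Matrix.add_mulVec, hp, hq, eval_add, add_smul]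
  | monomial k a =>
    rw [aeval_monomial, eval_monomial]
    have h1 : ∀ k : ℕ, (M ^ k).mulVec v = μ ^ k • v := by
      intro k
      induction k with
      | zero => simp
      | succ k ih => rw [pow_succ, ← Matrix.mulVec_mulVec, h, Matrix.mulVec_smul, ih, smul_smul,
          pow_succ, mul_comm]
    rw [← Matrix.mulVec_mulVec, h1, Matrix.mulVec_smul, Matrix.algebraMap_eq_diagonal]
    ext i
    simp only [Pi.smul_apply, Matrix.mulVec_diagonal, smul_eq_mul, Pi.algebraMap_apply,
      Algebra.algebraMap_self, RingHom.id_apply]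
    ring

lemma map_aeval {R K : Type*} [CommRing R] [CommRing K] {r : ℕ} (φ : R →+* K)
    (M : Matrix (Fin r) (Fin r) R) (P : R[X]) :
    (aeval M P).map φ = aeval (M.map φ) (P.map φ) := by
  have h1 := hom_eval₂ P (algebraMap R (Matrix (Fin r) (Fin r) R)) φ.mapMatrix M
  rw [aeval_def, aeval_def, eval₂_map]
  change φ.mapMatrix (eval₂ (algebraMap R (Matrix (Fin r) (Fin r) R)) M P) = _
  rw [h1]
  congr 1
  ext a i j
  by_cases hij : i = j
  · subst hij
    simp [Matrix.algebraMap_eq_diagonal]
  · simp [Matrix.algebraMap_eq_diagonal, Matrix.diagonal_apply_ne _ hij]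

section

variable {R : Type u} [CommRing R] [IsDomain R] [CharZero R] {n r : ℕ}

/-- An element which vanishes at closed points of arbitrarily large characteristic is zero. -/
lemma zero_of_inf [Algebra.IsAlgebraic ℤ R] (x : R)
    (h : ∀ P₀ : ℕ, ∃ p : ℕ, P₀ < p ∧ p.Prime ∧ ∃ (𝔪 : Ideal R) (_ : 𝔪.IsMaximal), (p : R) ∈ 𝔪 ∧
      x ∈ 𝔪) : x = 0 := by
  by_contra hx
  obtain ⟨M, hM0, hM⟩ := (Algebra.IsAlgebraic.isAlgebraic (R := ℤ) x).exists_nonzero_dvd
    (mem_nonZeroDivisors_of_ne_zero hx)
  obtain ⟨p, hp1, hp, 𝔪, hmax, hpm, hxm⟩ := h M.natAbs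
  have hMm : ((M : ℤ) : R) ∈ 𝔪 := by
    have := 𝔪.mem_of_dvd hM hxm
    simpa using this
  have hcop : IsCoprime M (p : ℤ) := by
    rw [Int.isCoprime_iff_gcd_eq_one]
    have h1 : Nat.Coprime M.natAbs p := by
      rw [Nat.coprime_comm, Nat.Prime.coprime_iff_not_dvd hp]
      intro hdvd
      have := Nat.le_of_dvd (Int.natAbs_pos.mpr hM0) hdvd
      omega
    rw [Int.gcd_eq_natAbs]
    simpa using h1
  obtain ⟨a, b, hab⟩ := hcop
  apply hmax.ne_top
  rw [Ideal.eq_top_iff_one]
  have h1 : (1 : R) = (a : R) * ((M : ℤ) : R) + (b : R) * (p : R) := by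
    have := congrArg (fun z : ℤ => (z : R)) hab
    push_cast at this
    exact this.symm
  rw [h1]
  exact 𝔪.add_mem (𝔪.mul_mem_left _ hMm) (𝔪.mul_mem_left _ hpm)

/-- The residues are diagonalizable. -/
theorem diag_of_few [Algebra.FiniteType ℤ R] [Algebra.IsAlgebraic ℤ R] {α : Fin n → R}
    {A : Fin n → Matrix (Fin r) (Fin r) R} (hα : ∀ i j, i ≠ j → IsUnit (α i - α j))
    (hfew : Few (BadPt α A) (1 / 4)) (B : Matrix (Fin r) (Fin r) R)
    (hB : (∃ j, B = A j) ∨ B = ∑ j, A j) (lam : Fin r → ℚ) (hlam : HasExponents B lam) :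
    DiagExps B lam := by
  classical
  have hFz : CharZero (FractionRing R) := charZero_fraction (R := R)
  refine ⟨hlam, ?_⟩
  set Q := Finset.univ.image lam with hQ
  -- a common denominator
  set N : ℕ := ∏ l, (lam l).den with hN
  have hN0 : 0 < N := Finset.prod_pos fun l _ => (lam l).den_pos
  have hNq : ∀ q ∈ Q, ∃ m : ℤ, (N : ℚ) * q = m := by
    intro q hq
    obtain ⟨l, -, rfl⟩ := Finset.mem_image.mp hq
    obtain ⟨k, hk⟩ := Finset.dvd_prod_of_mem (fun l => (lam l).den) (Finset.mem_univ l)
    refine ⟨k * (lam l).num, ?_⟩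
    rw [hN, hk]
    push_cast
    have := Rat.den_mul_eq_num (lam l)
    rw [mul_comm ((lam l).den : ℚ) k, mul_assoc, this]
  choose! m hm using hNq
  set P : R[X] := ∏ q ∈ Q, (C (N : R) * X - C ((m q : ℤ) : R)) with hP
  have hNF : (N : FractionRing R) ≠ 0 := by exact_mod_cast hN0.ne'
  have hPF : P.map (algebraMap R (FractionRing R)) =
      C ((N : FractionRing R) ^ Q.card) * ∏ q ∈ Q, (X - C ((q : ℚ) : FractionRing R)) := by
    have h1 : (C ((N : FractionRing R) ^ Q.card) : (FractionRing R)[X]) =
        ∏ _q ∈ Q, C (N : FractionRing R) := by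
      rw [Finset.prod_const, C_pow]
    rw [h1, ← Finset.prod_mul_distrib, hP, Polynomial.map_prod]
    refine Finset.prod_congr rfl fun q hq => ?_
    have h2 : (N : FractionRing R) * ((q : ℚ) : FractionRing R) = ((m q : ℤ) : FractionRing R) := by
      exact_mod_cast congrArg (fun x : ℚ => (x : FractionRing R)) (hm q hq)
    have h3 : (C (N : R) * X - C ((m q : ℤ) : R)).map (algebraMap R (FractionRing R)) =
        C (N : FractionRing R) * X - C ((m q : ℤ) : FractionRing R) := by simp
    rw [h3, mul_sub, ← C_mul, h2]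
  -- the polynomial relation for the characteristic polynomial
  have hpoly : C ((N : R) ^ r) * B.charpoly = ∏ l, (C (N : R) * X - C ((m (lam l) : ℤ) : R)) := by
    apply map_injective _ (IsFractionRing.injective R (FractionRing R))
    have hlam' := hlam
    unfold HasExponents at hlam'
    rw [Polynomial.map_mul, hlam', Polynomial.map_prod]
    have h1 : (C ((N : R) ^ r)).map (algebraMap R (FractionRing R)) =
        ∏ _l : Fin r, (C (N : FractionRing R) : (FractionRing R)[X]) := by
      rw [Polynomial.map_C, map_pow, map_natCast, Finset.prod_const, Finset.card_univ,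
        Fintype.card_fin, C_pow]
    rw [h1, ← Finset.prod_mul_distrib]
    refine Finset.prod_congr rfl fun l _ => ?_
    have h2 : (N : FractionRing R) * ((lam l : ℚ) : FractionRing R) =
        ((m (lam l) : ℤ) : FractionRing R) := by
      exact_mod_cast congrArg (fun x : ℚ => (x : FractionRing R))
        (hm (lam l) (Finset.mem_image_of_mem _ (Finset.mem_univ l)))
    have h3 : (C (N : R) * X - C ((m (lam l) : ℤ) : R)).map (algebraMap R (FractionRing R)) =
        C (N : FractionRing R) * X - C ((m (lam l) : ℤ) : FractionRing R) := by simp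
    rw [h3, mul_sub, ← C_mul, h2]
  have hzero : aeval B P = 0 := by
    ext a b
    rw [Matrix.zero_apply]
    apply zero_of_inf
    intro P₀
    obtain ⟨P₁, hP₁⟩ := exists_closed_point R (one_ne_zero (α := R))
    obtain ⟨p, hpgt, hp, hgood⟩ := hfew.inf (by norm_num) (max P₀ P₁)
    simp only [max_lt_iff] at hpgt
    obtain ⟨𝔪, hmax, hpm, -⟩ := hP₁ p hp hpgt.2
    have hpc : PCurvZeroAt α A 𝔪 := by
      by_contra h
      exact hgood ⟨𝔪, hmax, hpm, h⟩
    refine ⟨p, hpgt.1, hp, 𝔪, hmax, hpm, ?_⟩
    obtain ⟨K, _, _, φ, e, c, hker, hc, he⟩ := eig_point hα hp hpm hpc B hB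
    apply hker
    have h1 : ∀ i, (P.map φ).eval ((e i : ℕ) : K) = 0 := by
      intro i
      have h2 := charpoly_of_eigenrows (B.map φ) c (fun i => ((e i : ℕ) : K)) he hc
      have h3 : (B.map φ).charpoly.eval ((e i : ℕ) : K) = 0 := by
        rw [h2, eval_prod]
        exact Finset.prod_eq_zero (Finset.mem_univ i) (by rw [eval_sub, eval_X, eval_C, sub_self])
      have h4 := congrArg (fun q : R[X] => (q.map φ).eval ((e i : ℕ) : K)) hpoly
      simp only [Polynomial.map_mul, eval_mul, ← Matrix.charpoly_map, h3, mul_zero,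
        Polynomial.map_prod, eval_prod] at h4
      obtain ⟨l, -, hl⟩ := Finset.prod_eq_zero_iff.mp h4.symm
      rw [hP, Polynomial.map_prod, eval_prod]
      exact Finset.prod_eq_zero (Finset.mem_image_of_mem _ (Finset.mem_univ l)) hl
    have h2 : (aeval B P).map φ = 0 := by
      rw [map_aeval]
      have h3 : ∀ i, (aeval (B.map φ) (P.map φ)).mulVec (c i) = 0 := by
        intro i
        rw [aeval_mulVec _ _ _ (he i), h1, zero_smul]
      have h4 : aeval (B.map φ) (P.map φ) * c.transpose = 0 := by
        ext x i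
        have := congrFun (h3 i) x
        rw [Matrix.mul_apply]
        simpa [Matrix.mulVec, dotProduct] using this
      have h5 : IsUnit c.transpose.det := by
        rw [Matrix.det_transpose]; exact isUnit_iff_ne_zero.mpr hc
      calc aeval (B.map φ) (P.map φ) =
            aeval (B.map φ) (P.map φ) * (c.transpose * c.transpose⁻¹) := by
              rw [Matrix.mul_nonsing_inv _ h5, mul_one]
        _ = 0 := by rw [← Matrix.mul_assoc, h4, Matrix.zero_mul]
    have h3 := congrFun (congrFun h2 a) b
    rw [Matrix.map_apply, Matrix.zero_apply] at h3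
    exact h3
  have h1 : aeval (B.map (algebraMap R (FractionRing R)))
      (P.map (algebraMap R (FractionRing R))) = 0 := by
    rw [← map_aeval, hzero]
    ext a b
    simp
  rw [hPF, map_mul, aeval_C] at h1
  have h2 : IsUnit (algebraMap (FractionRing R) (Matrix (Fin r) (Fin r) (FractionRing R))
      ((N : FractionRing R) ^ Q.card)) :=
    (isUnit_iff_ne_zero.mpr (pow_ne_zero _ hNF)).map _
  exact (h2.mul_right_eq_zero).mp h1

end

end Pool.Agent.Y227.TP
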