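import Pool.Agent.Y227.TP.Main

set_option autoImplicit false

/-!
The thrice punctured line.
-/

open Polynomial

namespace Pool.Agent.Y227.TP

open Pool.Agent.W432.PC Pool.Agent.W432.TC Pool.Agent.W432.HK Pool.Agent.Y227.SS
open Pool.Agent.TH571.GP

universe u

lemma adapted_of_nice {n r : ℕ} {C : AddSubgroup (ExponentIndex n r → ℤ) × (ExponentIndex n r → ℚ)}
    (h : ∀ z, InCoset C.1 C.2 z → Nice z) : Adapted C := fun z hz =>
  ⟨(h z hz).2, fun ty p₀ big m hty hm =>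
    exists_relations (fun z hz => (h z hz).1) hz ty hty.1 hty.2 p₀ big m hm⟩

theorem thrice (r : ℕ) :
    ∃ (ε : ℝ) (𝒟 : Finset (AddSubgroup (ExponentIndex 2 r → ℤ) × (ExponentIndex 2 r → ℚ))),
      0 < ε ∧ (∀ C ∈ 𝒟, Adapted C) ∧
      ∀ (R : Type u) [CommRing R] [IsDomain R] [CharZero R] [Algebra.FiniteType ℤ R]
        [Algebra.IsAlgebraic ℤ R] (b c : Matrix (Fin r) (Fin r) R),
        (∀ lam phi N, HasExponents b (lam 0) → HasExponents c (lam 1) → HasExponents (b + c) phi →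
          CommonDen lam phi N → BadClasses ![0, 1] ![b, c] N ε 1 ∨
            (ConjGood ![0, 1] ![b, c] lam phi N ∧ ∃ C ∈ 𝒟, InCoset C.1 C.2 (pt lam phi))) ∧
        (Few (BadPt ![0, 1] ![b, c]) ε → ∃ lam phi, DiagExps b (lam 0) ∧ DiagExps c (lam 1) ∧
          DiagExps (b + c) phi ∧ (∀ N, CommonDen lam phi N → ConjGood ![0, 1] ![b, c] lam phi N) ∧
          ∃ C ∈ 𝒟, InCoset C.1 C.2 (pt lam phi)) := by
  obtain ⟨ε, 𝒟, hε, h𝒟, h⟩ := density_sys.{u} 2 r
  refine ⟨ε, 𝒟, hε, fun C hC => adapted_of_nice (h𝒟 C hC), ?_⟩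
  intro R _ _ _ _ _ b c
  have hα : ∀ i j : Fin 2, i ≠ j → IsUnit ((![0, 1] : Fin 2 → R) i - ![0, 1] j) := by
    intro i j hij
    fin_cases i <;> fin_cases j
    · exact absurd rfl hij
    · simp
    · simp
    · exact absurd rfl hij
  have hsum : ∑ j, (![b, c] : Fin 2 → Matrix (Fin r) (Fin r) R) j = b + c := by simp
  obtain ⟨h1, h2⟩ := h R ![0, 1] ![b, c] hα
  refine ⟨fun lam phi N hb hc hbc hN => h1 lam phi N ?_ (by rw [hsum]; exact hbc) hN,
    fun hfew => ?_⟩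
  · intro j
    fin_cases j
    · exact hb
    · exact hc
  · obtain ⟨lam, phi, h3, h4, h5, h6⟩ := h2 hfew
    rw [hsum] at h4
    exact ⟨lam, phi, h3 0, h3 1, h4, h5, h6⟩

end Pool.Agent.Y227.TP
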