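import Pool.Agent.Y227.TP.Diag
import Pool.Agent.W432.HK.Stmt

set_option autoImplicit false

/-!
The density theorem for systems over orders in number fields.
-/

open Polynomial

namespace Pool.Agent.Y227.TP

open Pool.Agent.W432.PC Pool.Agent.W432.TC Pool.Agent.W432.HK Pool.Agent.Y227.SS
open Pool.Agent.TH571.GP

universe u

section

variable {n r : ℕ}

/-- The Weyl inequalities and semistability. -/
def Nice (z : ExponentIndex n r → ℝ) : Prop :=
  WeylBoth z ∧ SemistableWeights ℂ (fun j l => z (Sum.inl (j, l))) (fun l => z (Sum.inr l))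

lemma nice_open (y : ExponentIndex n r → ℝ)
    (hy : (∃ e : ℤ, ∑ i, (traceRelation n r i : ℝ) * y i = e) ∧ ¬ Nice y) :
    ∃ δ : ℝ, 0 < δ ∧ ∀ x : ExponentIndex n r → ℝ,
      (∃ z : ℤ, ∑ i, (traceRelation n r i : ℝ) * x i = z) →
      (∀ i, ∃ z : ℤ, |x i - y i - z| < δ) →
      (∃ e : ℤ, ∑ i, (traceRelation n r i : ℝ) * x i = e) ∧ ¬ Nice x := by
  obtain ⟨⟨e, he⟩, hz⟩ := hy
  unfold Nice at hz
  rw [not_and_or] at hz
  rcases hz with hz | hz
  · rw [tr_sum] at he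
    unfold WeylBoth at hz
    rw [not_and_or] at hz
    rcases hz with hz | hz
    · obtain ⟨δ, hδ, h⟩ := weyl_open _ _ ⟨e, he⟩ hz
      refine ⟨δ, hδ, fun x hx hnear => ⟨hx, fun hW => ?_⟩⟩
      exact h _ _ (fun j l => hnear _) (fun l => hnear _) hW.1.1
    · obtain ⟨δ, hδ, h⟩ := weyl_open _ _ ⟨-e, by
        simp only [Finset.sum_neg_distrib]; push_cast; rw [← he]; ring⟩ hz
      refine ⟨δ, hδ, fun x hx hnear => ⟨hx, fun hW => ?_⟩⟩
      refine h _ _ (fun j l => ?_) (fun l => ?_) hW.1.2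
      · obtain ⟨z', hz'⟩ := hnear (Sum.inl (j, l))
        refine ⟨-z', ?_⟩
        push_cast
        rw [← abs_neg]
        have h1 : -(-x (Sum.inl (j, l)) - -y (Sum.inl (j, l)) - -(z' : ℝ)) =
          x (Sum.inl (j, l)) - y (Sum.inl (j, l)) - z' := by ring
        rw [h1]
        exact hz'
      · obtain ⟨z', hz'⟩ := hnear (Sum.inr l)
        refine ⟨-z', ?_⟩
        push_cast
        rw [← abs_neg]
        have h1 : -(-x (Sum.inr l) - -y (Sum.inr l) - -(z' : ℝ)) =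
          x (Sum.inr l) - y (Sum.inr l) - z' := by ring
        rw [h1]
        exact hz'
  · obtain ⟨δ, hδ, h⟩ := semistable_open y hz
    exact ⟨δ, hδ, fun x hx hnear => ⟨hx, fun hN => h x hnear hN.2⟩⟩

end

section

variable {R : Type u} [CommRing R] [IsDomain R] {n r : ℕ}

variable [CharZero R]

omit [IsDomain R] [CharZero R] in
lemma BadClasses.mono {α : Fin n → R} {A : Fin n → Matrix (Fin r) (Fin r) R} {N : ℕ} {ε ε' : ℝ}
    {g : R} (h : BadClasses α A N ε g) (hε : ε' ≤ ε) : BadClasses α A N ε' g := by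
  obtain ⟨S, P₀, h1, h2⟩ := h
  exact ⟨S, P₀, (mul_le_mul_of_nonneg_right hε (Nat.cast_nonneg _)).trans h1, h2⟩

/-- Over an order in a number field the nonzero `g` can be removed. -/
lemma BadClasses.of_g [Algebra.IsAlgebraic ℤ R] {α : Fin n → R}
    {A : Fin n → Matrix (Fin r) (Fin r) R} {N : ℕ} {ε : ℝ} {g : R} (hg : g ≠ 0)
    (h : BadClasses α A N ε g) : BadClasses α A N ε 1 := by
  obtain ⟨S, P₀, h1, h2⟩ := h
  obtain ⟨P₁, hP₁⟩ : ∃ P₁ : ℕ, ∀ p : ℕ, P₁ < p → p.Prime → ∀ (𝔪 : Ideal R) (_ : 𝔪.IsMaximal),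
      (p : R) ∈ 𝔪 → g ∉ 𝔪 := by
    by_contra hcon
    push Not at hcon
    exact hg (zero_of_inf g fun P₀ => by
      obtain ⟨p, h1, h2, 𝔪, h3, h4, h5⟩ := hcon P₀
      exact ⟨p, h1, h2, 𝔪, h3, h4, h5⟩)
  refine ⟨S, max P₀ P₁, h1, fun p hp hpP hS 𝔪 h𝔪 hpm _ => ?_⟩
  rw [max_lt_iff] at hpP
  exact h2 p hp hpP.1 hS 𝔪 hpm (hP₁ p hpP.2 hp 𝔪 h𝔪 hpm)

/-- Bad classes give a positive lower density of bad primes. -/
lemma BadClasses.not_few [Algebra.FiniteType ℤ R] {α : Fin n → R}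
    {A : Fin n → Matrix (Fin r) (Fin r) R} {N : ℕ} {ε : ℝ} (hN : 0 < N) (hε : 0 < ε)
    (h : BadClasses α A N ε 1) : ¬ Few (BadPt α A) (ε / 2) := by
  obtain ⟨S, P₀, h1, h2⟩ := h
  obtain ⟨P₁, hP₁⟩ := exists_closed_point R (one_ne_zero (α := R))
  refine not_few_of_classes hN hε S (max P₀ P₁) h1 fun p hp hpP hS => ?_
  rw [max_lt_iff] at hpP
  obtain ⟨𝔪, hmax, hpm, h3⟩ := hP₁ p hp hpP.2
  exact ⟨𝔪, hmax, hpm, h2 p hp hpP.1 hS 𝔪 hpm h3⟩

end

lemma exists_commonDen {m n : ℕ} (lam : Fin m → Fin n → ℚ) (phi : Fin n → ℚ) :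
    ∃ N : ℕ, CommonDen lam phi N := by
  classical
  let x : (Fin m × Fin n) ⊕ Fin n → ℚ := Sum.elim (fun p => lam p.1 p.2) phi
  have hx : ∀ i, ∃ z : ℤ, ((∏ i, (x i).den : ℕ) : ℚ) * x i = z := by
    intro i
    refine ⟨(∏ i' ∈ Finset.univ.erase i, ((x i').den : ℤ)) * (x i).num, ?_⟩
    have h1 : (∏ i, (x i).den) = (∏ i' ∈ Finset.univ.erase i, (x i').den) * (x i).den :=
      (Finset.prod_erase_mul _ _ (Finset.mem_univ i)).symm
    rw [h1]
    push_cast
    rw [mul_assoc, Rat.den_mul_eq_num]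
  exact ⟨∏ i, (x i).den, Finset.prod_pos fun i _ => (x i).den_pos,
    fun j l => hx (Sum.inl (j, l)), fun l => hx (Sum.inr l)⟩

theorem density_sys (n r : ℕ) :
    ∃ (ε : ℝ) (𝒟 : Finset (AddSubgroup (ExponentIndex n r → ℤ) × (ExponentIndex n r → ℚ))),
      0 < ε ∧
      (∀ C ∈ 𝒟, ∀ z : ExponentIndex n r → ℝ, InCoset C.1 C.2 z → Nice z) ∧
      ∀ (R : Type u) [CommRing R] [IsDomain R] [CharZero R] [Algebra.FiniteType ℤ R]
        [Algebra.IsAlgebraic ℤ R] (α : Fin n → R) (A : Fin n → Matrix (Fin r) (Fin r) R),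
        (∀ i j, i ≠ j → IsUnit (α i - α j)) →
        (∀ lam phi N, (∀ j, HasExponents (A j) (lam j)) → HasExponents (∑ j, A j) phi →
          CommonDen lam phi N → BadClasses α A N ε 1 ∨
            (ConjGood α A lam phi N ∧ ∃ C ∈ 𝒟, InCoset C.1 C.2 (pt lam phi))) ∧
        (Few (BadPt α A) ε → ∃ lam phi, (∀ j, DiagExps (A j) (lam j)) ∧
          DiagExps (∑ j, A j) phi ∧ (∀ N, CommonDen lam phi N → ConjGood α A lam phi N) ∧
          ∃ C ∈ 𝒟, InCoset C.1 C.2 (pt lam phi)) := by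
  classical
  obtain ⟨ε₁, hε₁, hgap₁⟩ := Pool.Agent.Y227.UD.gap (I := ExponentIndex n r) (traceRelation n r)
    {z | (∃ e : ℤ, ∑ i, (traceRelation n r i : ℝ) * z i = e) ∧ ¬ Nice z}
    (fun y hy => nice_open y hy)
  obtain ⟨𝒟, h𝒟, hcov⟩ := torsion_cosets (I := ExponentIndex n r) (traceRelation n r)
    {z | (∃ e : ℤ, ∑ i, (traceRelation n r i : ℝ) * z i = e) ∧ ¬ Nice z}
    (fun y hy => nice_open y hy)
  obtain ⟨ε₂, hε₂, hgap₂⟩ := gap' (I := ExponentIndex n r) ((n + 1) * r)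
    {z | ¬ StableWeights ℂ (fun j l => z (Sum.inl (j, l))) (fun l => z (Sum.inr l))} (by
      intro y hy
      exact stable_open y hy)
  have hmin : 0 < min ε₁ ε₂ := lt_min hε₁ hε₂
  have hC : ∀ C ∈ 𝒟, ∀ z : ExponentIndex n r → ℝ, InCoset C.1 C.2 z → Nice z := by
    intro C hC z hz
    by_contra h
    obtain ⟨-, h1, ⟨e, h2⟩, h3⟩ := h𝒟 C hC
    refine h3 z hz ⟨?_, h⟩
    obtain ⟨e', he'⟩ := hz _ h1
    refine ⟨e' + e, ?_⟩
    have h4 : ∑ i, (traceRelation n r i : ℝ) * C.2 i = e := by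
      have := congrArg (fun q : ℚ => (q : ℝ)) h2
      push_cast at this
      exact this
    push_cast
    rw [← he', ← h4, ← Finset.sum_add_distrib]
    exact Finset.sum_congr rfl fun i _ => by ring
  have key : ∀ (R : Type u) [CommRing R] [IsDomain R] [CharZero R] [Algebra.FiniteType ℤ R]
      [Algebra.IsAlgebraic ℤ R] (α : Fin n → R) (A : Fin n → Matrix (Fin r) (Fin r) R),
      (∀ i j, i ≠ j → IsUnit (α i - α j)) → ∀ lam phi N, (∀ j, HasExponents (A j) (lam j)) →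
      HasExponents (∑ j, A j) phi → CommonDen lam phi N → ¬ BadClasses α A N (min ε₁ ε₂) 1 →
        (ConjGood α A lam phi N ∧ ∃ C ∈ 𝒟, InCoset C.1 C.2 (pt lam phi)) := by
    intro R _ _ _ _ _ α A hα lam phi N hlam hphi hNN hnb
    obtain ⟨hN, hNlam, hNphi⟩ := hNN
    have : NeZero N := ⟨hN.ne'⟩
    have := charZero_fraction (R := R)
    set x : ExponentIndex n r → ℚ := Sum.elim (fun p => lam p.1 p.2) phi with hx
    have hNx : ∀ i, ∃ z : ℤ, (N : ℚ) * x i = z := by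
      rintro (⟨j, l⟩ | l)
      · exact hNlam j l
      · exact hNphi l
    have htr : ∑ i, (traceRelation n r i : ℚ) * x i = 0 := by
      rw [tr_sum]
      simp only [hx, Sum.elim_inl, Sum.elim_inr]
      have h1 := HasExponents.trace hphi
      have h2 := fun j => HasExponents.trace (hlam j)
      have h3 : (∑ j, A j).trace = ∑ j, (A j).trace := by
        rw [Matrix.trace_sum]
      rw [h3, map_sum, Finset.sum_congr rfl fun j _ => h2 j] at h1
      have h4 : ((∑ j, ∑ l, lam j l : ℚ) : FractionRing R) =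
          ((∑ l, phi l : ℚ) : FractionRing R) := by
        push_cast
        push_cast at h1
        exact h1
      have h5 : ∑ j, ∑ l, lam j l = ∑ l, phi l := by exact_mod_cast h4
      rw [h5, sub_self]
    have htrZ : ∃ z : ℤ, ∑ i, (traceRelation n r i : ℚ) * x i = z := ⟨0, by rw [htr]; simp⟩
    have htrR : ∀ a : ℤ, ∃ e : ℤ, ∑ i, (traceRelation n r i : ℝ) * ((a : ℝ) * x i) = e := by
      intro a
      refine ⟨0, ?_⟩
      have h1 : ∑ i, (traceRelation n r i : ℝ) * x i = 0 := by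
        have := congrArg (fun q : ℚ => (q : ℝ)) htr
        push_cast at this
        exact this
      rw [Int.cast_zero]
      calc ∑ i, (traceRelation n r i : ℝ) * ((a : ℝ) * x i) =
            a * ∑ i, (traceRelation n r i : ℝ) * x i := by
              rw [Finset.mul_sum]
              exact Finset.sum_congr rfl fun i _ => by ring
        _ = 0 := by rw [h1, mul_zero]
    have hrep : ∀ u : (ZMod N)ˣ, (((((u : (ZMod N)ˣ) : ZMod N).val : ℤ)) : ZMod N) =
        ((u : (ZMod N)ˣ) : ZMod N) := by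
      intro u
      push_cast; rw [ZMod.natCast_zmod_val]
    have hnice : ∀ a : ℤ, IsCoprime a (N : ℤ) → Nice (fun i => (a : ℝ) * x i) := by
      by_contra hcon
      push Not at hcon
      obtain ⟨a₀, ha₀, hna₀⟩ := hcon
      obtain ⟨S, hS1, hS2⟩ := hgap₁ x htrZ N hN hNx ⟨a₀, ha₀, htrR a₀, hna₀⟩
      apply hnb
      have hbad : BadClasses α A N (min ε₁ ε₂) (∏ u ∈ S, (fun _ => (1 : R)) u) := by
        refine collect' α A N hN _ S ((mul_le_mul_of_nonneg_right (min_le_left _ _)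
          (Nat.cast_nonneg _)).trans hS1) (fun _ => (1 : R)) fun u hu => ⟨_, hrep u, ?_⟩
        have h1 := (hS2 u hu _ (hrep u)).2
        unfold Nice at h1
        rw [not_and_or] at h1
        obtain ⟨P₀, hP₀⟩ : ∃ P₀ : ℕ, ∀ p : ℕ, p.Prime → P₀ < p →
            (N : ℤ) ∣ (((u : (ZMod N)ˣ) : ZMod N).val : ℤ) * p + 1 →
            ∀ (𝔪 : Ideal R) [𝔪.IsMaximal], (p : R) ∈ 𝔪 → ¬ PCurvZeroAt α A 𝔪 := by
          rcases h1 with h1 | h1
          · exact exists_bad α hα A lam phi hlam hphi N hN hNlam hNphi _ h1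
          · exact (final α hα A lam phi hlam hphi N hN hNlam hNphi
              (((u : (ZMod N)ˣ) : ZMod N).val : ℤ)).1 h1
        exact ⟨P₀, fun p hp hpP hap 𝔪 _ hpm _ => hP₀ p hp hpP hap 𝔪 hpm⟩
      rw [Finset.prod_const_one] at hbad
      exact hbad
    refine ⟨fun a ha => ⟨(hnice a ha).2, fun hirr => ?_⟩, ?_⟩
    · by_contra hns
      obtain ⟨S, hS1, hS2⟩ := hgap₂ x N hN hNx ⟨a, ha, hns⟩
      have h1 : ∀ u ∈ S, ∃ g : R, g ≠ 0 ∧ ∃ P₀ : ℕ, ∀ p : ℕ, p.Prime → P₀ < p →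
          (N : ℤ) ∣ (((u : (ZMod N)ˣ) : ZMod N).val : ℤ) * p + 1 →
          ∀ (𝔪 : Ideal R) [𝔪.IsMaximal], (p : R) ∈ 𝔪 → g ∉ 𝔪 → ¬ PCurvZeroAt α A 𝔪 := by
        intro u hu
        exact (final α hα A lam phi hlam hphi N hN hNlam hNphi
          (((u : (ZMod N)ˣ) : ZMod N).val : ℤ)).2.1 hirr (hS2 u hu _ (hrep u))
      choose! g hg hP using h1
      have hbad : BadClasses α A N (min ε₁ ε₂) (∏ u ∈ S, g u) :=
        collect' α A N hN _ S ((mul_le_mul_of_nonneg_right (min_le_right _ _)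
          (Nat.cast_nonneg _)).trans hS1) g fun u hu => ⟨_, hrep u, hP u hu⟩
      exact hnb (BadClasses.of_g (Finset.prod_ne_zero_iff.mpr hg) hbad)
    · exact hcov x htrZ ⟨N, hN, hNx, fun a ha h => h.2 (hnice a ha)⟩
  refine ⟨min (min ε₁ ε₂ / 2) (1 / 4), 𝒟, lt_min (by positivity) (by norm_num), hC, ?_⟩
  intro R _ _ _ _ _ α A hα
  refine ⟨fun lam phi N hlam hphi hN => ?_, fun hfew => ?_⟩
  · refine or_iff_not_imp_left.mpr fun hnb => key R α A hα lam phi N hlam hphi hN fun h => hnb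
      (BadClasses.mono h ((min_le_left _ _).trans (by linarith)))
  · have hfew4 : Few (BadPt α A) (1 / 4) := hfew.mono (min_le_right _ _)
    have h1 : ∀ j, ∃ lam : Fin r → ℚ, HasExponents (A j) lam := fun j =>
      exists_exponents hα hfew4 (A j) (Or.inl ⟨j, rfl⟩)
    choose lam hlam using h1
    obtain ⟨phi, hphi⟩ := exists_exponents hα hfew4 (∑ j, A j) (Or.inr rfl)
    have hnb : ∀ N, CommonDen lam phi N → ¬ BadClasses α A N (min ε₁ ε₂) 1 := fun N hN hbad =>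
      BadClasses.not_few hN.1 hmin hbad (hfew.mono (min_le_left _ _))
    obtain ⟨N, hN⟩ := exists_commonDen lam phi
    exact ⟨lam, phi, fun j => diag_of_few hα hfew4 (A j) (Or.inl ⟨j, rfl⟩) _ (hlam j),
      diag_of_few hα hfew4 _ (Or.inr rfl) _ hphi,
      fun N' hN' => (key R α A hα lam phi N' hlam hphi hN' (hnb N' hN')).1,
      (key R α A hα lam phi N hlam hphi hN (hnb N hN)).2⟩

end Pool.Agent.Y227.TP
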