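import Pool.Agent.Y227.TP.Katz

set_option autoImplicit false

/-!
Rational exponents.
-/

open Polynomial

namespace Pool.Agent.Y227.TP

open Pool.Agent.W432.PC Pool.Agent.W432.TC Pool.Agent.Y227.SS

universe u

lemma fraction_algebraic (R : Type*) [CommRing R] [IsDomain R] [CharZero R]
    [Algebra.IsAlgebraic ℤ R] : Algebra.IsAlgebraic ℚ (FractionRing R) := by
  have : CharZero (FractionRing R) := charZero_fraction (R := R)
  have key : ∀ y : R, IsAlgebraic ℚ (algebraMap R (FractionRing R) y) := by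
    intro y
    obtain ⟨P, hP0, hP⟩ := Algebra.IsAlgebraic.isAlgebraic (R := ℤ) y
    refine ⟨P.map (Int.castRingHom ℚ), (Polynomial.map_ne_zero_iff (Int.cast_injective)).mpr hP0, ?_⟩
    rw [aeval_def, eval₂_map]
    have h1 := congrArg (algebraMap R (FractionRing R)) hP
    rw [map_zero, aeval_def, hom_eval₂] at h1
    rw [← h1]
    congr 1
    exact RingHom.ext_int _ _
  refine ⟨fun x => ?_⟩
  obtain ⟨a, b, hb, rfl⟩ := IsFractionRing.div_surjective (A := R) x
  exact (key a).mul (key b).inv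

/-- Nonzero elements of the algebraic closure of a finite field have finite order. -/
lemma exists_pow_one (p : ℕ) [Fact p.Prime] (a : AlgebraicClosure (ZMod p)) (ha : a ≠ 0) :
    ∃ k : ℕ, 0 < k ∧ a ^ k = 1 := by
  have h1 : IsIntegral (ZMod p) a := Algebra.IsIntegral.isIntegral a
  let F := IntermediateField.adjoin (ZMod p) {a}
  have : FiniteDimensional (ZMod p) F := IntermediateField.adjoin.finiteDimensional h1
  have : Finite F := Module.finite_of_finite (ZMod p)
  let a' : F := ⟨a, IntermediateField.mem_adjoin_simple_self (ZMod p) a⟩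
  have ha' : a' ≠ 0 := fun h => ha (congrArg Subtype.val h)
  have hf : IsOfFinOrder (Units.mk0 a' ha') := isOfFinOrder_of_finite _
  obtain ⟨k, hk, h2⟩ := hf.exists_pow_eq_one
  refine ⟨k, hk, ?_⟩
  have h3 := congrArg (fun u : Fˣ => ((u : F) : AlgebraicClosure (ZMod p))) h2
  simpa using h3

lemma ker_maximal {R : Type*} [CommRing R] (p : ℕ) [Fact p.Prime]
    (ψ : R →+* AlgebraicClosure (ZMod p)) : (RingHom.ker ψ).IsMaximal := by
  rw [Ideal.isMaximal_iff]
  refine ⟨?_, fun J x hJ hx hxJ => ?_⟩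
  · rw [RingHom.mem_ker, map_one]; exact one_ne_zero
  · rw [RingHom.mem_ker] at hx
    obtain ⟨k, hk, h1⟩ := exists_pow_one p (ψ x) hx
    have h2 : x ^ k - 1 ∈ J := hJ (by rw [RingHom.mem_ker, map_sub, map_pow, h1, map_one, sub_self])
    have h3 : x ^ k ∈ J := J.pow_mem_of_mem hxJ k hk
    have h4 : (1 : R) = x ^ k - (x ^ k - 1) := by ring
    rw [h4]
    exact J.sub_mem h3 h2

section

variable {R : Type u} [CommRing R] [IsDomain R] [CharZero R] {n r : ℕ}

/-- The characteristic polynomials of the residues at a closed point with vanishing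
`p`-curvature. -/
lemma charpoly_point {α : Fin n → R} {A : Fin n → Matrix (Fin r) (Fin r) R}
    (hα : ∀ i j, i ≠ j → IsUnit (α i - α j)) {𝔪 : Ideal R} [h𝔪 : 𝔪.IsMaximal] {p : ℕ}
    (hp : p.Prime) (hpm : (p : R) ∈ 𝔪) (hpc : PCurvZeroAt α A 𝔪)
    (B : Matrix (Fin r) (Fin r) R) (hB : (∃ j, B = A j) ∨ B = ∑ j, A j)
    {Ω : Type*} [Field Ω] (ψ : R →+* Ω) (hψ : ∀ g ∈ 𝔪, ψ g = 0) :
    ∃ e : Fin r → ℕ, B.charpoly.map ψ = ∏ i, (X - C ((e i : ℕ) : Ω)) := by
  obtain ⟨K, _, _, φ, e, c, hker, hc, he⟩ := eig_point hα hp hpm hpc B hB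
  have h1 := charpoly_of_eigenrows (B.map φ) c (fun i => ((e i : ℕ) : K)) he hc
  rw [Matrix.charpoly_map] at h1
  refine ⟨e, ?_⟩
  have hP1 : (∏ i, (X - C ((e i : ℕ) : R)) : R[X]).map φ = ∏ i, (X - C ((e i : ℕ) : K)) := by
    rw [Polynomial.map_prod]
    refine Finset.prod_congr rfl fun i _ => ?_
    rw [Polynomial.map_sub, map_X, map_C, map_natCast]
  have hP2 : (∏ i, (X - C ((e i : ℕ) : R)) : R[X]).map ψ = ∏ i, (X - C ((e i : ℕ) : Ω)) := by
    rw [Polynomial.map_prod]
    refine Finset.prod_congr rfl fun i _ => ?_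
    rw [Polynomial.map_sub, map_X, map_C, map_natCast]
  rw [← hP1] at h1
  rw [← hP2]
  ext k
  have h2 := congrArg (fun q => q.coeff k) h1
  simp only [coeff_map] at h2 ⊢
  have h3 : φ (B.charpoly.coeff k - (∏ i, (X - C ((e i : ℕ) : R)) : R[X]).coeff k) = 0 := by
    rw [map_sub, h2, sub_self]
  have h4 := hψ _ (hker _ h3)
  rw [map_sub] at h4
  exact sub_eq_zero.mp h4

/-- The eigenvalues of the residues are rational. -/
theorem rational_root [Algebra.FiniteType ℤ R] {α : Fin n → R}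
    {A : Fin n → Matrix (Fin r) (Fin r) R} (hα : ∀ i j, i ≠ j → IsUnit (α i - α j))
    (hfew : Few (BadPt α A) (1 / 4)) (B : Matrix (Fin r) (Fin r) R)
    (hB : (∃ j, B = A j) ∨ B = ∑ j, A j) (ι : R →+* AlgebraicClosure ℚ)
    (hι : Function.Injective ι) (θ : AlgebraicClosure ℚ) (hθ : (B.charpoly.map ι).eval θ = 0) :
    ∃ q : ℚ, (q : AlgebraicClosure ℚ) = θ := by
  classical
  by_contra hcon
  push Not at hcon
  obtain ⟨S, hS⟩ := (Algebra.FiniteType.out : (⊤ : Subalgebra ℤ R).FG)
  obtain ⟨p, hfact, R', _, ι', φ, -, hgood, hι', hS', θ', hθ', hφ⟩ :=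
    exists_frob_point hfew (S.image ι) θ hcon 0
  have hrange : ∀ x, ι x ∈ ι'.range := by
    have h1 : (⊤ : Subalgebra ℤ R) ≤ subalgebraOfSubring (ι'.range.comap ι) := by
      rw [← hS]
      refine Algebra.adjoin_le fun x hx => ?_
      obtain ⟨y, hy⟩ := hS' (ι x) (Finset.mem_image_of_mem ι hx)
      exact ⟨y, hy⟩
    exact fun x => h1 (Algebra.mem_top (x := x))
  let e : R' ≃+* ι'.range := RingEquiv.ofBijective ι'.rangeRestrict
    ⟨fun a b hab => hι' (congrArg Subtype.val hab), ι'.rangeRestrict_surjective⟩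
  let ψ : R →+* R' := (e.symm : ι'.range →+* R').comp (ι.codRestrict ι'.range hrange)
  have hψ : ∀ x, ι' (ψ x) = ι x := by
    intro x
    have h1 : e (ψ x) = ι.codRestrict ι'.range hrange x := e.apply_symm_apply _
    exact congrArg Subtype.val h1
  let ψ₂ : R →+* AlgebraicClosure (ZMod p) := φ.comp ψ
  have hmax : (RingHom.ker ψ₂).IsMaximal := ker_maximal p ψ₂
  have hch : CharP (AlgebraicClosure (ZMod p)) p :=
    charP_of_injective_algebraMap (algebraMap (ZMod p) _).injective p
  have hpm : (p : R) ∈ RingHom.ker ψ₂ := by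
    rw [RingHom.mem_ker, map_natCast]
    exact CharP.cast_eq_zero _ p
  have hpc : PCurvZeroAt α A (RingHom.ker ψ₂) := by
    by_contra h
    exact hgood ⟨_, hmax, hpm, h⟩
  obtain ⟨ee, he⟩ := charpoly_point hα hfact.out hpm hpc B hB ψ₂ (fun g hg => hg)
  have h1 : (B.charpoly.map ψ).eval θ' = 0 := by
    apply hι'
    rw [map_zero, ← eval_map_apply, Polynomial.map_map, hθ']
    have h2 : ι'.comp ψ = ι := RingHom.ext hψ
    rw [h2]
    exact hθ
  have h2 : (B.charpoly.map ψ₂).eval (φ θ') = 0 := by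
    have h3 : B.charpoly.map ψ₂ = (B.charpoly.map ψ).map φ := by rw [Polynomial.map_map]
    rw [h3, eval_map_apply, h1, map_zero]
  rw [he, eval_prod, Finset.prod_eq_zero_iff] at h2
  obtain ⟨i, -, hi⟩ := h2
  rw [eval_sub, eval_X, eval_C] at hi
  apply hφ
  rw [sub_eq_zero.mp hi]
  have h4 : ((ee i : ℕ) : AlgebraicClosure (ZMod p)) =
      algebraMap (ZMod p) (AlgebraicClosure (ZMod p)) ((ee i : ℕ) : ZMod p) := by
    rw [map_natCast]
  rw [h4, ← map_pow, ZMod.pow_card]

/-- The residues have rational exponents. -/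
theorem exists_exponents [Algebra.FiniteType ℤ R] [Algebra.IsAlgebraic ℤ R] {α : Fin n → R}
    {A : Fin n → Matrix (Fin r) (Fin r) R} (hα : ∀ i j, i ≠ j → IsUnit (α i - α j))
    (hfew : Few (BadPt α A) (1 / 4)) (B : Matrix (Fin r) (Fin r) R)
    (hB : (∃ j, B = A j) ∨ B = ∑ j, A j) : ∃ lam : Fin r → ℚ, HasExponents B lam := by
  have : CharZero (FractionRing R) := charZero_fraction (R := R)
  have : Algebra.IsAlgebraic ℚ (FractionRing R) := fraction_algebraic R
  let f : FractionRing R →ₐ[ℚ] AlgebraicClosure ℚ := IsAlgClosed.lift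
  let ι : R →+* AlgebraicClosure ℚ := (f : FractionRing R →+* AlgebraicClosure ℚ).comp
    (algebraMap R (FractionRing R))
  have hι : Function.Injective ι := (f : FractionRing R →+* AlgebraicClosure ℚ).injective.comp
    (IsFractionRing.injective R (FractionRing R))
  have hmon : (B.charpoly.map ι).Monic := (Matrix.charpoly_monic B).map ι
  obtain ⟨lam, hlam⟩ := Pool.Agent.W432.HK.split_rat (n := r) (B.charpoly.map ι) (by
      rw [(Matrix.charpoly_monic B).natDegree_map, Matrix.charpoly_natDegree_eq_dim,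
        Fintype.card_fin])
    (fun θ _ hθ => rational_root hα hfew B hB ι hι θ hθ)
  refine ⟨lam, ?_⟩
  unfold HasExponents
  apply Polynomial.map_injective (f : FractionRing R →+* AlgebraicClosure ℚ)
    (f : FractionRing R →+* AlgebraicClosure ℚ).injective
  rw [Polynomial.map_map, Polynomial.map_prod]
  rw [hmon.leadingCoeff, map_one, one_mul] at hlam
  rw [show (f : FractionRing R →+* AlgebraicClosure ℚ).comp (algebraMap R (FractionRing R)) = ι
    from rfl, hlam]
  refine Finset.prod_congr rfl fun l _ => ?_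
  have h1 := map_ratCast (f : FractionRing R →+* AlgebraicClosure ℚ) (lam l)
  rw [Polynomial.map_sub, map_X, map_C, h1]

end

end Pool.Agent.Y227.TP
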